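import Pool.Agent.H2.KS2

set_option autoImplicit false

namespace Pool.Agent.Results.MP_636246_an.Sink

open MeasureTheory Filter Topology Pool.Agent.H2.KS

theorem result : ∃ (p : Polynomial ℂ) (a : ℂ) (f : ℂ × ℂ → ℂ × ℂ) (φ : ℂ × ℂ → ℝ)
    (μ : Measure (ℂ × ℂ)), 2 ≤ p.natDegree ∧ a ≠ 0 ∧ f = (fun z => (z.2, p.eval z.2 - a * z.1)) ∧
      Continuous φ ∧ Holder φ ∧ pressure f φ = 0 ∧ (∀ ν, IsEq f φ ν ↔ ν = μ) ∧
      ∃ ψ : ℂ × ℂ → ℝ, Continuous ψ ∧ HasCompactSupport ψ ∧ ∫ z, ψ z ∂μ = 1 ∧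
        (∀ n, ∀ x ∈ SP f n, ψ x = 0) ∧
        ¬ Tendsto (fun n : ℕ => Real.exp (-n * (pressure f φ).toReal) *
          ∑ᶠ x ∈ SP f n, Real.exp (birkhoffSum f φ n x) * ψ x) atTop (𝓝 (∫ z, ψ z ∂μ)) := by
  obtain ⟨φ, h1, h2, h0, h3⟩ := eq_iff hg_diff (R := 10) (r := 1 / 10) (by norm_num)
    (fun z h => by simpa [Prod.norm_def, and_comm] using rec_le h.swap)
    (F := {(1, 1)}) (by measurability) (c := (1, 1)) rfl
    (by rintro z rfl; simp [hg, pp_eval]; norm_num) (fun z hz h =>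
      congrArg Prod.swap (rec_sink (.inl rfl) hz.swap (by
        rwa [Metric.infDist_singleton, Prod.dist_eq, max_comm] at h)))
  set ψ : ℂ × ℂ → ℝ := fun z => max (1 - 10 * dist z (1, 1)) 0 with hψ
  have z0 : ∀ z, 1 / 10 ≤ dist z (1, 1) → ψ z = 0 := fun z h => max_eq_right (by linarith)
  have i1 : ∫ z, ψ z ∂(Measure.dirac (1, 1)) = 1 := by simp [hψ]
  refine ⟨pp, 1 / 100, hg, φ, Measure.dirac (1, 1), pp_deg, by norm_num, rfl, h1, h2, h0,
    fun ν => (h3 ν).trans ⟨fun h => ?_, fun h => h ▸ ⟨inferInstance, by simp⟩⟩, ψ, by fun_prop,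
    HasCompactSupport.intro (isCompact_closedBall (1, 1) (1 / 10)) fun z hz =>
      z0 z (not_le.1 hz).le, i1, fun n x hx => z0 x (far hx), fun h => ?_⟩
  · have := h.1
    have e : ν.map id = ν.map fun _ => ((1, 1) : ℂ × ℂ) := Measure.map_congr h.2
    simpa using e
  · rw [i1] at h
    have e : ∀ n, ∑ᶠ x ∈ SP hg n, Real.exp (birkhoffSum hg φ n x) * ψ x = 0 := fun n =>
      finsum_mem_of_eqOn_zero fun x hx => by simp [z0 x (far hx)]
    simp only [e, mul_zero] at h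
    exact zero_ne_one (tendsto_nhds_unique tendsto_const_nhds h)

end Pool.Agent.Results.MP_636246_an.Sink
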